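import Pool.Agent.N383.ORB.Pink
import Pool.Agent.N24.RW.All
import Pool.Agent.U569.APL.Fam

/-!
# MP_28d749_ag: Pink's conjecture at parameters formed from arbitrary sets

**The elliptic families** are those of `ManyParameters` and `RandomOrbits`. The base is the space of all
`s = (a, b, s_1, …, s_r) ∈ ℂ^(2+r)` with `4 a³ + 27 b² ≠ 0`, the fibre at `s` is the `q`-th power of the
elliptic curve `y² = x³ + a x + b` (`curve`). A family is a finite system of polynomials in the
coordinates `(a, b, s_1, …, s_r, x(P_1), …, x(P_q))` and `N` auxiliary coordinates with the exponents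
`supp j` and the coefficients `c j β ∈ ℤ[t_1, …, t_k][t_0]` (`k` is called `s` in the theorem); the member
`X_t` (`OnX`) is the set of the points `(P_1, …, P_q)`, with all `P_l` different from the origin, for which
there is a `y ∈ ℂ^N` with which all the equations with the coefficients evaluated at `t` hold.

**The condition** is the one of `ManyParameters` for hypersurfaces `h_1, …, h_M` of degree one in `t_0`
(`HasOrd`, `GenericP`: the tropicalizations of the family along these hypersurfaces); the coefficients of
`h_l`, also the leading one, may be any polynomials in `t_1, …, t_k`.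

**The parameters.** Let a sequence (`j = 0, 1, 2, …`) of finite families of vectors in `ℤ ^ ν` be given. The vectors of the
`j`-th family are `c₀ + y`, `c₀` an arbitrary integral vector (depending on `j`, of any size) and `y` one of the following
vectors (represented by `0, …, q - 1`):

* `y` in any family of vectors modulo some `q` (depending on `j`), whose nontrivial Fourier coefficients are at most
  `1 / (Z (42 + 3 log q) ^ |ν|)`, where `Z → ∞`, `Z ≤ q`;
* `β(x, z) + u(x) + w(z)` modulo a prime `P → ∞`, where `β : k ^ a × k ^ b → k ^ ν` is bilinear, the nontrivial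
  combinations of its coordinates have rank at least `ρ`, `x` and `z` are in ARBITRARY sets `E` and `F` with
  `|E| |F| ≥ P ^ (a + b - ρ + δ)`, `u` and `w` are arbitrary functions (for `δ > 0` fixed);
* the same for `β(x, z) = x z`, `x` and `z` in ARBITRARY subsets of the field of `P ^ |ν|` elements,
  `|E| |F| ≥ P ^ (|ν| + δ)`;
* polynomials in `k` variables of degree at most `P ^ (δ / 4)`, all nontrivial combinations of which have a monomial with
  at least two variables, plus arbitrary functions of the single variables, on products of `k` ARBITRARY sets of at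
  least `P ^ (1 / 2 + δ)` residues;
* polynomials in one variable of degree at most `P ^ (δ / 4)`, no nontrivial combination of which is constant, on any
  subgroup of the multiplicative group modulo `P` with at least `P ^ (1 / 2 + δ)` elements.

**Theorem.** There are exceptions `E j`, `|E j| = o(size)`, such that for ALL elliptic families as above, with all numbers
`k`, `r`, `q`, `N`, all systems of equations and all injective choices of `1 + k` coordinates as parameters, for large `j`
the member `X_t` has no atypical intersection with algebraic subgroups of the fibres (`NoAtypicalP`) for all the parameters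
`t` given by the vectors of the `j`-th family outside of `E j`.

New: the families of the parameters. The local criterion and the pronull sets are those of the starting library
`N383.ORB`; such sets contain few members of the families by the theorem of the starting library `N384.VF` on vectors of
residues; the estimates of the Fourier coefficients on arbitrary sets are in `U569/APL`.
-/

set_option autoImplicit false

namespace Pool.Agent.Results.MP_28d749_ag.ArbitrarySets

open Filter
open Pool.Agent.R424.MP Pool.Agent.R424.PT Pool.Agent.N383.ORB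
open Pool.Agent.Results.MP_28d749_ag.RandomMultisections (curve)
open Pool.Agent.N24.RW (t_CLO t_CRIT S_CLO S_CRIT ProNull)
open Pool.Agent.U569.APL

/-- one small set of exceptions for all pairs of coprime polynomials -/
theorem engine_flat (hC : S_CRIT) (hD : S_CLO) {ι : Type} [Fintype ι] [DecidableEq ι] {τ : ℕ → Type}
    {s : ∀ j, Finset (τ j)} {v : ∀ j, τ j → ι → ℤ} (hs : FlatFamilies s v) :
    ∃ E : ∀ j, Finset (τ j), Small s E ∧
      ∀ (d : Dt ι) (D : ℕ), Outside s E v fun c => Gd d.h d.G D (fun i => c (d.j i)) := by
  have hB : ∀ (d : Dt ι) (D : ℕ), ProNull {c : ι → ℤ | ¬ Gd d.h d.G D (fun i => c (d.j i))} := by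
    intro d D
    have h1 := pronull_one hC hD d.h d.G d.deg d.cop D
    have h2 := (hD (Fin (d.s + 1))).2.2.2.2 ι d.j d.j.injective {w : Fin (d.s + 1) → ℤ | ¬ Gd d.h d.G D w} h1
    exact h2
  obtain ⟨E, hE, h⟩ := flat_diag hs (fun x : Dt ι × ℕ => {c : ι → ℤ | ¬ Gd x.1.h x.1.G x.2 (fun i => c (x.1.j i))})
    (fun x => hB x.1 x.2)
  refine ⟨E, hE, fun d D => ?_⟩
  filter_upwards [h (d, D)] with j hj i hi hi2
  exact not_not.mp (hj i hi hi2)

/-- the theorem in terms of the property `PinkAt` of the library -/
theorem pink_flat (hC : S_CRIT) (hD : S_CLO) {ν : Type} [Fintype ν] [DecidableEq ν] {τ : ℕ → Type}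
    {S : ∀ j, Finset (τ j)} {v : ∀ j, τ j → ν → ℤ} (hS : FlatFamilies S v) :
      ∃ E : ∀ j, Finset (τ j), Small S E ∧
      ∀ (s r q N m M : ℕ) (f : Fin (s + 1) → ν), Function.Injective f →
        ∀ (κ : Type) [Finite κ] (supp : κ → Finset ((Coord r q ⊕ Fin N) →₀ ℕ))
          (c : κ → ((Coord r q ⊕ Fin N) →₀ ℕ) → Polynomial (MvPolynomial (Fin s) ℤ))
          (h : Fin M → Polynomial (MvPolynomial (Fin s) ℤ)), (∀ l, (h l).natDegree = 1) →
          ∀ e : Fin M → κ → ((Coord r q ⊕ Fin N) →₀ ℕ) → ℕ,
            (∀ l j, ∀ β ∈ supp j, HasOrd (h l) (c j β) (e l j β)) → GenericP m supp e →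
            Outside S E v fun t => PinkAt m supp c (fun i => t (f i)) := by
  obtain ⟨E, hE, hfin⟩ := engine_flat hC hD hS
  refine ⟨E, hE, ?_⟩
  intro s r q N m M f hf κ _ supp c h hdeg e he hgen
  obtain ⟨G, hcop, hG⟩ := local_crit supp c h e he hgen
  have h1 : ∀ᶠ i in atTop, ∀ l : Fin M, ∀ t ∈ S i, t ∉ E i → Gd (h l) (G l) 0 (fun a => v i t (f a)) :=
    eventually_all.2 fun l => hfin ⟨s, ⟨f, hf⟩, h l, G l, hdeg l, hcop l⟩ 0
  unfold Outside
  filter_upwards [h1] with i hi t ht htE
  exact hG _ fun l => hi l t ht htE

/-- **Pink's conjecture at parameters formed from arbitrary sets.** -/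
theorem result (ν : Type) [Fintype ν] :
    (∀ (τ : ℕ → Type) (S : ∀ j, Finset (τ j)) (v : ∀ j, τ j → ν → ℤ), FlatFamilies S v →
      ∃ E : ∀ j, Finset (τ j), Small S E ∧
      ∀ (s r q N m M : ℕ) (f : Fin (s + 1) → ν), Function.Injective f →
        ∀ (κ : Type) [Finite κ] (supp : κ → Finset ((Coord r q ⊕ Fin N) →₀ ℕ))
          (c : κ → ((Coord r q ⊕ Fin N) →₀ ℕ) → Polynomial (MvPolynomial (Fin s) ℤ))
          (h : Fin M → Polynomial (MvPolynomial (Fin s) ℤ)), (∀ l, (h l).natDegree = 1) →
          ∀ e : Fin M → κ → ((Coord r q ⊕ Fin N) →₀ ℕ) → ℕ,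
            (∀ l j, ∀ β ∈ supp j, HasOrd (h l) (c j β) (e l j β)) → GenericP m supp e →
            Outside S E v fun t => NoAtypicalP m (OnX supp (fun j β =>
                ((ev (t (f 0)) (fun i => t (f i.succ)) (c j β) : ℤ) : ℂ)) :
              ∀ x : Fin 2 ⊕ Fin r → ℂ,
                (Fin q → (curve (x (Sum.inl 0)) (x (Sum.inl 1))).Point) → Prop)) ∧
    Examples ν := by
  classical
  refine ⟨fun τ S v hS => ?_, examples _⟩
  obtain ⟨E, hE, h⟩ := pink_flat t_CRIT t_CLO hS
  exact ⟨E, hE, fun s r q N m M f hf κ _ supp c h' hdeg e he hgen => h s r q N m M f hf κ supp c h' hdeg e he hgen⟩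

end Pool.Agent.Results.MP_28d749_ag.ArbitrarySets
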