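import Pool.Agent.U815.PK.Final

/-!
# MP_28d749_ag, Q1: a counterexample to Pink's conjecture as it is stated, with group subschemes
over the given base `S`

Let `k` be an algebraic closure of `ℚ` and let `E` be the elliptic curve `y² = x³ - 2` over `ℚ`.
Let `S' = 𝔾_m → S = 𝔾_m` be the finite étale cover `t ↦ t³` of degree three, and let `𝒜 → S` be
the Weil restriction of the constant abelian scheme `E × S' → S'` along this cover.  It is an
abelian scheme of relative dimension three over `ℚ`; its fibre over `s ∈ k*` is the group of the
maps from the three cube roots of `s` to `E(k)`, and over `S'` it becomes `E³ × S'`, so that `𝒜` is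
the quotient of `S' × E³` by the group `μ₃`, which acts by multiplication on `S' = 𝔾_m` and by
cyclic permutations on `E³`.  In the file `Pool/Agent/U815/PK/Defs.lean`, `A` is the set of
`k`-points of `𝒜` with the Zariski topology: the quotient topology of the Zariski topology of
`Y = S' × E³`, whose closed sets are given by polynomials which are homogeneous in the projective
coordinates of each of the three points of `E`.

The curve `X ⊂ 𝒜` consists of the points which are given by the maps with the value `Q` at `t` and
the value zero at `ζ t` and `ζ² t`, where `Q` is an affine point of `E` with `x(Q) = t ≠ 0`.  This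
point is in the algebraic subgroup `E × 0 × 0` of codimension two of its fibre, so `X ⊆ 𝒜^{[>1]}`,
and `d = dim X = 1`.  However, `X` is in no strict group subscheme `G` of `𝒜` over `S`: the
monodromy around zero permutes the three factors of the fibres, and for `t = ζ^i x(2ⁿ P)`, where
`P = (3, 5)`, the point `Q = (t, y(2ⁿ P))` has infinite order (as `y² = x³ - 2` has the
automorphism `x ↦ ζ x`).  So the fibre of `G` over `s = x(2ⁿ P)³` contains a Zariski dense subgroup
of each of the three factors, and it is the fibre of `𝒜`; and `x(2ⁿ P)` takes infinitely many
values.

After the base change to `S'` the curve `X` splits up, and each part is in a group subscheme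
`E × 0 × 0` of `E³ × S'`: the conjecture with the assumption that `X` is not in a strict group
subscheme also after finite base changes is not affected by this example.
-/

set_option autoImplicit false

namespace Pool.Agent.Results.MP_28d749_ag.MonodromyCounterexample

open Pool.Agent.U815.PK

/-- There is an irreducible closed subset `X` of dimension one of the abelian scheme `𝒜` over
`𝔾_m` of relative dimension three, such that each closed subset `G ⊇ X` of `𝒜` which is fibrewise
a subgroup is all of `𝒜`, whereas each point of `X` is in a closed subgroup of codimension greater
than one of its fibre; in particular `X ∩ 𝒜^{[>1]}` is Zariski dense in `X`. -/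
theorem result : ∃ X : Set A, IsClosed X ∧ IsIrreducible X ∧ topologicalKrullDim X = 1 ∧
    (∀ G : Set A, IsClosed G → IsGroupSubset G → X ⊆ G → G = Set.univ) ∧
    X ⊆ bracket 1 ∧ X ⊆ closure (X ∩ bracket 1) := by
  obtain ⟨X, h1, h2, h3, h4, h5⟩ := main
  exact ⟨X, h1, h2, h3, h4, h5, fun a ha => subset_closure ⟨ha, h5 ha⟩⟩

end Pool.Agent.Results.MP_28d749_ag.MonodromyCounterexample
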