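import Pool.Agent.U854.SA.Res
import Pool.Agent.TH971.RF.C2
import Pool.Agent.W282.LF.Top

/-!
# MP_28d749_ag: Pink's conjecture for multisections of the powers of an arbitrary elliptic scheme from
their reduction at one place

**The abelian scheme.** Let `K` be a number field, `σ : K → ℂ`, and let `V ⊆ (P¹)^r` be a variety of any
dimension given by multihomogeneous forms `H_t` over `𝓞 K`. Let `A`, `B` be multihomogeneous forms over
`𝓞 K` of the multidegrees `4 ε` and `6 ε`. They give the elliptic scheme `E` with the fibres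
`E_s : y² = x³ + A(s) x + B(s)` over the open subset of `V` with `4 A³ + 27 B² ≠ 0`. (Up to a restriction
to a dense open subset of the base this is every elliptic scheme over a variety over `K`.) Let `𝒜` be
its `q`-th fibre power.

**Subvarieties.** Let `F_{l,0}, …, F_{l,R_l}`, `l = 1, …, q`, be multihomogeneous forms over `𝓞 K` of the
multidegrees `d_l + 2 h ε` (`h ≤ R_l`), and `μ_l ∈ K^×`. The points `(s, P)` of `E` with
`∑_h μ_l^h F_{l,h}(s) x(P)^(R_l - h) = 0`, which means `F_{l,0}(s) = 0` at the origin `P = 0`, form a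
multisection of `E`, of degree `2 R_l` in general. Let `X ⊆ 𝒜` be the fibre product of these `q`
multisections (`OnX`). (Let `X'` be any subvariety of `𝒜`. One can take `V = X'` as the base, with the
pull-back of `E`. The pairs `P_l, -P_l` are multisections of degree 2 over `V`, so the points of `X'` are
points of such an `X` and conversely up to the signs of the `P_l`.)

**The condition.** Let `v` be a prime of `K` above `p`, with ramification index `e`.

* The reduction modulo `v` is in general position (`GeneralPosition`): on the reduction of `V` the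
  locus where `F_{l,0} F_{l,R_l}` is zero for `a` of the numbers `l` has dimension at most `m - a`, for
  all `a ≥ 0`.
* `|μ_l| = |ϖ|^(-f_l)` at `v` with `2 f_l > e`, and the `q` levels `f_l` are pairwise incongruent modulo
  `e` (`Scales`).

There is no condition on the reduction of the elliptic scheme, `A` and `B` can be `0` modulo `v`.

**Theorem** (`result`).
1. Then `X` has no atypical intersections with the algebraic subgroups of the fibres, of any
   codimension (`NoAtypical`): for all `ρ` every irreducible closed subset of the image of `X ∩ 𝒜^[≥ρ]`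
   in `V` has dimension at most `m - ρ`, and the image of every complex point of `X ∩ 𝒜^[≥ρ]` has
   transcendence degree at most `m - ρ` over `ℚ`. In particular `X ∩ 𝒜^[>m]` is empty, as in Pink's
   conjecture. This holds for all `r`, `q`, `m` and all degrees.
2. In particular for the elliptic schemes over open subsets of `P¹` (`r = 1`, `m = 1`) it is
   sufficient for this that the forms `F_{l,0} F_{l,R_l}`, `l = 1, …, q`, are pairwise without common
   zeros modulo `v` and not zero modulo `v` (`LineCondition`): then the curve `X` does not meet any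
   algebraic subgroup of codimension at least two of any fibre of `𝒜`.

For instance (`q = 2`, `e = 2`): `K = ℚ(√p)`, `x(P_1) = p^(-1) F_1(s) / G_1(s)` and
`x(P_2) = p^(-3/2) F_2(s) / G_2(s)` with integral polynomials such that `F_1 G_1` and `F_2 G_2` are prime
to each other modulo `√p`, on any elliptic surface.

The algebraic subgroups of the fibres are given up to torsion by relations `∑ c_l (P_l) = 0` with
endomorphisms `c_l` of the curve as coefficients, also for curves with complex multiplication
(`InSubgroup`, as in the starting file `RandomMultisections`).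

Of the starting results for this problem `RandomMultisections`, `RandomPullbacks`, `OneNullSet` and
others are about a positive proportion or almost all of the vectors of coefficients, and
`TropicalLocalCriterion` needs coefficients with given orders at all the places above a prime
number and has a condition on these orders only (the tropicalization). Here only one place is used,
and the condition is about the residue classes modulo this place.

Proof: for a point of `X` over `s` with algebraically independent coordinates `s_j`, `j ∈ W`, there is a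
valuation ring of `ℂ` above `v` which extends the Gauss valuation of these coordinates, with rational
values. After normalization of the homogeneous coordinates of `s` the curve `E_s` is given by an
integral equation, and `|x(P_l)| = |ϖ|^(-f_l)` for the `l` such that `F_{l,0} F_{l,R_l}` is a unit. These
points are in the kernel of reduction and are independent over the endomorphism ring of `E_s` by
`Pool.Agent.TH971.RF.rel_placeE` of the starting library. So `ρ` is at most the number of the other
`l`, and this number is at most `m - |W|` as the residues of the `s_j`, `j ∈ W`, are algebraically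
independent.
-/

set_option autoImplicit false

namespace Pool.Agent.Results.MP_28d749_ag.OnePlace

open NumberField IsDedekindDomain

/-- The elliptic curve `y² = x³ + a x + b`. -/
def curve (a b : ℂ) : WeierstrassCurve.Affine ℂ := ⟨0, 0, 0, a, b⟩

/-- The `x`-coordinate of a point of the curve (`0` for the origin). -/
def xCoord {a b : ℂ} : (curve a b).Point → ℂ
  | .zero => 0
  | .some x _ _ => x

/-- The map `φ` of the points of the curve `y² = x³ + a x + b` to itself is given on the
`x`-coordinates by a rational function `u / w` with `u(x) / w(x) ~ x / c²` for `x → ∞`. -/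
def ActsByRational {a b : ℂ} (c : ℂ) (φ : (curve a b).Point → (curve a b).Point) : Prop :=
  ∃ u w : Polynomial ℂ, w ≠ 0 ∧ u.natDegree = w.natDegree + 1 ∧
    w.leadingCoeff = c ^ 2 * u.leadingCoeff ∧
    ∀ P : (curve a b).Point, P ≠ 0 → w.eval (xCoord P) ≠ 0 →
      φ P ≠ 0 ∧ xCoord (φ P) * w.eval (xCoord P) = u.eval (xCoord P)

/-- A ring of endomorphisms of the curve `y² = x³ + a x + b`: a ring `O` of complex numbers which
acts on the group of points. For an endomorphism which is multiplication by `λ` on the tangent space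
at the origin the number `λ` is an integer or an imaginary quadratic integer, in particular it
satisfies an equation `λ² - T λ + N = 0` with integers `T, N`, and if it is not an integer, the
`x`-coordinate of the image of a point is a rational function `u / w` of the `x`-coordinate of the
point, with `u(x) / w(x) ~ x / λ²` for `x → ∞`. (The integers in `O` act by multiplication, as `act`
is a homomorphism of rings.) -/
structure EndRing (a b : ℂ) where
  /-- the ring -/
  O : Subring ℂ
  /-- its action on the points -/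
  act : O →+* AddMonoid.End (curve a b).Point
  quad : ∀ c : O, ∃ T N : ℤ, (c : ℂ) ^ 2 - T * c + N = 0
  rat : ∀ c : O, (∀ n : ℤ, (c : ℂ) ≠ n) → ActsByRational c (act c)

/-- The linear combination `∑ c_l (P_l)` of points with endomorphisms `c_l` as coefficients. -/
noncomputable def EndRing.comb {a b : ℂ} (E : EndRing a b) {q : ℕ} (c : Fin q → E.O)
    (P : Fin q → (curve a b).Point) : (curve a b).Point :=
  ∑ l, E.act (c l) (P l)

/-- The coefficients `c_1, …, c_q` are a relation between the points `P_1, …, P_q` up to torsion: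
the point `∑ c_l (P_l)` is a torsion point. -/
def EndRing.Relation {a b : ℂ} (E : EndRing a b) {q : ℕ} (c : Fin q → E.O)
    (P : Fin q → (curve a b).Point) : Prop :=
  ∃ t : ℕ, 0 < t ∧ t • E.comb c P = 0

/-- The point `(P_1, …, P_q)` of the `q`-th power of the curve is in an algebraic subgroup of
codimension at least `ρ`: the module of the relations between the `P_l` over some ring of
endomorphisms of the curve has rank at least `ρ`, it has `ρ` linearly independent elements. -/
def InSubgroup {a b : ℂ} {q : ℕ} (P : Fin q → (curve a b).Point) (ρ : ℕ) : Prop :=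
  ∃ (E : EndRing a b) (c : Fin ρ → Fin q → E.O),
    LinearIndependent ℂ (fun i l => (c i l : ℂ)) ∧ ∀ i, E.Relation (c i) P

/-- A form with coefficients in `R` which is homogeneous of degree `deg i` in `(ξ i, ζ i)` for each
`i`: the coefficients of the monomials `∏ ξ_i ^ (e_i) ζ_i ^ (deg i - e_i)`. -/
structure MultiForm (R : Type) (r : ℕ) (deg : Fin r → ℕ) where
  coeff : ((i : Fin r) → Fin (deg i + 1)) → R

/-- The value of the form at a point over `k`, for a ring homomorphism `R → k`. -/
def MultiForm.eval {R k : Type} [CommRing R] [CommRing k] {r : ℕ} {deg : Fin r → ℕ}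
    (F : MultiForm R r deg) (π : R →+* k) (ξ ζ : Fin r → k) : k :=
  ∑ e, π (F.coeff e) * ∏ i, ξ i ^ (e i : ℕ) * ζ i ^ (deg i - e i)

/-- The form is not zero modulo `v`. -/
def MultiForm.NonzeroMod {R : Type} [CommRing R] {r : ℕ} {deg : Fin r → ℕ} (F : MultiForm R r deg)
    (v : Ideal R) : Prop :=
  ∃ e, F.coeff e ∉ v

/-- The equations of the variety `V ⊆ (P¹)^r`, of the elliptic scheme and of the multisections: forms
`H_t`, the forms `A`, `B` of the multidegrees `4 ε` and `6 ε`, forms `F_{l,h}` of the multidegrees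
`d_l + 2 h ε` (`h ≤ R_l`) over the ring of integers of a number field `K ⊆ ℂ`, and scales `μ_l ∈ K`. -/
structure Data (r q : ℕ) where
  K : Type
  [field : Field K]
  [numberField : NumberField K]
  σ : K →+* ℂ
  T : Type
  degH : T → Fin r → ℕ
  H : (t : T) → MultiForm (𝓞 K) r (degH t)
  ε : Fin r → ℕ
  A : MultiForm (𝓞 K) r (fun j => 4 * ε j)
  B : MultiForm (𝓞 K) r (fun j => 6 * ε j)
  R : Fin q → ℕ
  d : Fin q → Fin r → ℕ
  F : (l : Fin q) → (h : Fin (R l + 1)) → MultiForm (𝓞 K) r (fun j => d l j + 2 * h * ε j)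
  μ : Fin q → K

attribute [instance] Data.field Data.numberField

variable {r q : ℕ}

/-- the embedding of the ring of integers into `ℂ` -/
def Data.ι (D : Data r q) : 𝓞 D.K →+* ℂ := D.σ.comp (algebraMap (𝓞 D.K) D.K)

/-- The fibre `E_s` of the elliptic scheme at the point `s = (ξ_j : ζ_j)_j`. (For other homogeneous
coordinates `(λ_j ξ_j, λ_j ζ_j)` of `s` one gets an isomorphic curve, and `x(P)` is multiplied by
`∏ λ_j ^ (2 ε_j)`.) -/
def Data.fibre (D : Data r q) (ξ ζ : Fin r → ℂ) : WeierstrassCurve.Affine ℂ :=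
  curve (D.A.eval D.ι ξ ζ) (D.B.eval D.ι ξ ζ)

/-- The point over `k` with homogeneous coordinates `(ξ_j : ζ_j)_j` satisfies the equations of `V`. -/
def Data.InBase (D : Data r q) {k : Type} [Field k] (π : 𝓞 D.K →+* k) (ξ ζ : Fin r → k) : Prop :=
  (∀ j, ξ j ≠ 0 ∨ ζ j ≠ 0) ∧ ∀ t, (D.H t).eval π ξ ζ = 0

/-- The first or the last of the forms of the multisection with number `l` is zero at the point. -/
def Data.Bad (D : Data r q) {k : Type} [Field k] (π : 𝓞 D.K →+* k) (ξ ζ : Fin r → k) (l : Fin q) :
    Prop :=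
  (D.F l 0).eval π ξ ζ = 0 ∨ (D.F l (Fin.last (D.R l))).eval π ξ ζ = 0

/-- reduction modulo an ideal, followed by the inclusion into an extension -/
def reduction {R : Type} [CommRing R] (v : Ideal R) (k : Type) [Field k] [Algebra (R ⧸ v) k] :
    R →+* k :=
  (algebraMap (R ⧸ v) k).comp (Ideal.Quotient.mk v)

/-- The point `P` of the fibre at `(ξ_j : ζ_j)_j` is on the multisection with number `l`. -/
def Data.OnMultisection (D : Data r q) (l : Fin q) (ξ ζ : Fin r → ℂ) (P : (D.fibre ξ ζ).Point) :
    Prop :=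
  (P = 0 ∧ (D.F l 0).eval D.ι ξ ζ = 0) ∨
    (P ≠ 0 ∧ ∑ h : Fin (D.R l + 1), D.σ (D.μ l) ^ (h : ℕ) * (D.F l h).eval D.ι ξ ζ *
      xCoord P ^ (D.R l - (h : ℕ)) = 0)

/-- The point `(s; P_1, …, P_q)` of the `q`-th fibre power is a point of `X`. -/
def Data.OnX (D : Data r q) (ξ ζ : Fin r → ℂ) (P : Fin q → (D.fibre ξ ζ).Point) : Prop :=
  D.InBase D.ι ξ ζ ∧ ∀ l, D.OnMultisection l ξ ζ (P l)

/-- `X` has no atypical intersection. For all `ρ` the base point `s` of every point of `X ∩ 𝒜^[≥ ρ]` has
transcendence degree at most `m - ρ`, and every irreducible closed subset of the image of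
`X ∩ 𝒜^[≥ ρ]` in the base has dimension at most `m - ρ`. More precisely, let `W` be an irreducible
closed subset of `ℂ^r` such that over all points of `W` outside of some hypersurface `h = 0`, which
does not contain `W`, there are points of `X ∩ 𝒜^[≥ ρ]`. Then `dim W + ρ ≤ m`. -/
def Data.NoAtypical (D : Data r q) (m : ℕ) : Prop :=
  (∀ (ρ : ℕ) (ξ ζ : Fin r → ℂ) (P : Fin q → (D.fibre ξ ζ).Point), D.OnX ξ ζ P →
    InSubgroup P ρ → ∀ W : Finset (Fin r),
      AlgebraicIndependent ℚ (fun i : W => ξ i / ζ i) → W.card + ρ ≤ m) ∧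
  ∀ (ρ : ℕ) (W : Set (Fin r → ℂ)) (h : MvPolynomial (Fin r) ℂ),
    (∀ s ∈ W, MvPolynomial.eval s h ≠ 0 →
      ∃ P : Fin q → (D.fibre s 1).Point, D.OnX s 1 P ∧ InSubgroup P ρ) →
    Pool.Agent.W282.ZP.zcl W ⊆ W → (Pool.Agent.W282.ZP.idealOf W).IsPrime →
    h ∉ Pool.Agent.W282.ZP.idealOf W →
    Pool.Agent.W282.ZP.zdim W + (ρ : Cardinal) ≤ (m : Cardinal)

/-- The reduction modulo `v` is in general position: for each point `s̄ = (ξ_i : ζ_i)_i` of the
reduction of `V` over an extension field `k` of `𝓞 K / v`, the number of the `l` such that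
`F_{l,0}(s̄) = 0` or `F_{l,R_l}(s̄) = 0` plus the number of any family of algebraically independent
coordinates of `s̄` is at most `m`. -/
def Data.GeneralPosition (D : Data r q) (v : Ideal (𝓞 D.K)) (m : ℕ) : Prop :=
  ∀ (k : Type) [Field k] [Algebra (𝓞 D.K ⧸ v) k] (ξ ζ : Fin r → k),
    D.InBase (reduction v k) ξ ζ →
    ∀ W : Finset (Fin r), AlgebraicIndependent (𝓞 D.K ⧸ v) (fun i : W => ξ i / ζ i) →
      {l | D.Bad (reduction v k) ξ ζ l}.ncard + W.card ≤ m

/-- The scales: `v` is a place above `p` with ramification index `e`, `|μ_l| = |ϖ|^(-f_l)`, `2 f_l > e`,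
and the levels `f_l` are pairwise incongruent modulo `e`. -/
structure Data.Scales (D : Data r q) (v : HeightOneSpectrum (𝓞 D.K)) where
  p : ℕ
  prime : p.Prime
  mem : (p : 𝓞 D.K) ∈ v.asIdeal
  e : ℕ
  ram : v.valuation D.K (p : D.K) = WithZero.exp (-(e : ℤ))
  f : Fin q → ℕ
  scale : ∀ l, v.valuation D.K (D.μ l) = WithZero.exp (f l : ℤ)
  level : ∀ l, e < 2 * f l
  level_ne : ∀ l l', l ≠ l' → ¬ f l ≡ f l' [MOD e]

theorem xCoord_eq {a b : ℂ} (P : (curve a b).Point) :
    xCoord P = Pool.Agent.W466.EP.xx (A := a) (B := b) P := by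
  rcases P with _ | ⟨x, y, h⟩
  · rfl
  · rfl

/-- the ring of endomorphisms as in the helper files -/
def toE {a b : ℂ} (E : EndRing a b) : Pool.Agent.TH971.RF.EndRing a b where
  O := E.O
  act := E.act
  quad := E.quad
  rat := by
    intro c hc
    obtain ⟨u, w, h1, h2, h3, h4⟩ := E.rat c hc
    refine ⟨u, w, h1, h2, h3, fun P hP hw => ?_⟩
    have e1 : xCoord (a := a) (b := b) P = Pool.Agent.W466.EP.xx (A := a) (B := b) P := xCoord_eq P
    have hw' : w.eval (xCoord (a := a) (b := b) P) ≠ 0 := by rw [e1]; exact hw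
    have h5 := h4 P hP hw'
    have e2 : xCoord (a := a) (b := b) (E.act c P) =
      Pool.Agent.W466.EP.xx (A := a) (B := b) (E.act c P) := xCoord_eq _
    rw [e1, e2] at h5
    exact h5

theorem comb_add {a b : ℂ} (E : EndRing a b) {q : ℕ} (c c' : Fin q → E.O)
    (P : Fin q → (curve a b).Point) : E.comb (c + c') P = E.comb c P + E.comb c' P := by
  unfold EndRing.comb
  rw [← Finset.sum_add_distrib]
  refine Finset.sum_congr rfl fun l _ => ?_
  rw [Pi.add_apply, map_add]
  rfl

theorem comb_smul {a b : ℂ} (E : EndRing a b) {q : ℕ} (x : E.O) (c : Fin q → E.O)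
    (P : Fin q → (curve a b).Point) : E.comb (x • c) P = E.act x (E.comb c P) := by
  simp [EndRing.comb, map_sum]

/-- the module of the relations -/
def relMod {a b : ℂ} (E : EndRing a b) {q : ℕ} (P : Fin q → (curve a b).Point) :
    Submodule E.O (Fin q → E.O) where
  carrier := {c | E.Relation c P}
  zero_mem' := ⟨1, one_pos, by simp [EndRing.comb]⟩
  add_mem' := by
    rintro c c' ⟨t, ht, h⟩ ⟨t', ht', h'⟩
    refine ⟨t * t', Nat.mul_pos ht ht', ?_⟩
    rw [comb_add, nsmul_add, mul_nsmul, h, mul_comm t t', mul_nsmul, h', nsmul_zero, nsmul_zero,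
      add_zero]
  smul_mem' := by
    rintro x c ⟨t, ht, h⟩
    refine ⟨t, ht, ?_⟩
    rw [comb_smul, ← map_nsmul, h, map_zero]

theorem le_finrank {a b : ℂ} (E : EndRing a b) {q ρ : ℕ} (P : Fin q → (curve a b).Point)
    (c : Fin ρ → Fin q → E.O) (hc : LinearIndependent ℂ (fun i l => (c i l : ℂ)))
    (h : ∀ i, E.Relation (c i) P) : ρ ≤ Module.finrank E.O (relMod E P) := by
  have h1 : LinearIndependent E.O (fun i => (⟨c i, h i⟩ : relMod E P)) := by
    rw [Fintype.linearIndependent_iff] at hc ⊢
    intro g hg i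
    have h2 : ∑ i, (g i : ℂ) • (fun l => (c i l : ℂ)) = 0 := by
      funext l
      have h3 := congrArg (fun v : relMod E P => (((v : Fin q → E.O) l : E.O) : ℂ)) hg
      simpa [Finset.sum_apply] using h3
    exact_mod_cast hc _ h2 i
  have h2 := h1.cardinal_le_rank
  have h3 : Module.rank E.O (relMod E P) < Cardinal.aleph0 := by
    refine (Submodule.rank_le _).trans_lt ?_
    rw [rank_fun']
    exact Cardinal.natCast_lt_aleph0
  have h4 := Cardinal.toNat_le_toNat h2 h3
  simpa [Module.finrank] using h4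

/-- relations supported outside a small set -/
theorem exists_relation {O : Type} [CommRing O] [Nontrivial O] {k : ℕ}
    (M : Submodule O (Fin k → O)) (B : Finset (Fin k))
    (h : B.card < Module.finrank O M) : ∃ a ∈ M, a ≠ 0 ∧ ∀ j ∈ B, a j = 0 := by
  classical
  by_contra hcon
  push Not at hcon
  let f : M →ₗ[O] (B → O) :=
    (LinearMap.funLeft O O (fun j : B => (j : Fin k))).comp M.subtype
  have hf : Function.Injective f := by
    rw [injective_iff_map_eq_zero]
    intro a ha
    by_contra hne
    obtain ⟨j, hj, hj'⟩ := hcon a a.2 (fun h => hne (Subtype.ext h))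
    exact hj' (congrFun ha ⟨j, hj⟩)
  have h1 := LinearMap.finrank_le_finrank_of_injective hf
  rw [Module.finrank_pi, Fintype.card_coe] at h1
  omega

/-- the form as in the helper files -/
def toForm {R : Type} {deg : Fin r → ℕ} (F : MultiForm R r deg) :
    Pool.Agent.U854.SA.Form R (Fin r) := ⟨deg, F.coeff⟩

theorem eval_scale {R k : Type} [CommRing R] [CommRing k] {deg : Fin r → ℕ}
    (F : MultiForm R r deg) (π : R →+* k) (l a b : Fin r → k) :
    F.eval π (fun i => l i * a i) (fun i => l i * b i) = F.eval π a b * ∏ i, l i ^ deg i :=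
  Pool.Agent.U854.SA.Form.eval_scale (toForm F) π l a b

theorem map_eval {R k k' : Type} [CommRing R] [CommRing k] [CommRing k'] {deg : Fin r → ℕ}
    (F : MultiForm R r deg) (π : R →+* k) (f : k →+* k') (ξ ζ : Fin r → k) :
    f (F.eval π ξ ζ) = F.eval (f.comp π) (fun i => f (ξ i)) (fun i => f (ζ i)) :=
  Pool.Agent.U854.SA.Form.map_eval (toForm F) π f ξ ζ

/-- a root of a polynomial with integral coefficients whose first and last coefficients are units is
a unit -/
theorem root_unit (V : ValuationSubring ℂ) (R : ℕ) (F : Fin (R + 1) → ℂ)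
    (hF : ∀ h, V.valuation (F h) ≤ 1) (h0 : V.valuation (F 0) = 1)
    (h1 : V.valuation (F (Fin.last R)) = 1) {x : ℂ}
    (hx : ∑ h : Fin (R + 1), F h * x ^ (R - (h : ℕ)) = 0) : V.valuation x = 1 := by
  classical
  by_contra hne
  rcases lt_or_gt_of_ne hne with hlt | hgt
  · have h2 : V.valuation (∑ h ∈ Finset.univ.erase (Fin.last R), F h * x ^ (R - (h : ℕ))) < 1 := by
      refine Valuation.map_sum_lt _ one_ne_zero ?_
      intro h hh
      have h3 : (h : ℕ) < R := by
        have h4 := (Finset.mem_erase.1 hh).1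
        have h5 := h.2
        have h6 : (h : ℕ) ≠ R := fun h7 => h4 (Fin.ext h7)
        omega
      rw [map_mul, map_pow]
      exact (mul_le_of_le_one_left' (hF h)).trans_lt (pow_lt_one₀ zero_le hlt (by omega))
    have h3 : F (Fin.last R) * x ^ (R - ((Fin.last R : Fin (R + 1)) : ℕ)) = F (Fin.last R) := by
      rw [Fin.val_last, Nat.sub_self, pow_zero, mul_one]
    have h4 := hx
    rw [← Finset.add_sum_erase _ _ (Finset.mem_univ (Fin.last R)), h3] at h4
    have h5 : F (Fin.last R) = -∑ h ∈ Finset.univ.erase (Fin.last R), F h * x ^ (R - (h : ℕ)) :=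
      eq_neg_of_add_eq_zero_left h4
    rw [h5, Valuation.map_neg] at h1
    exact absurd h2 (by rw [h1]; exact lt_irrefl _)
  · have hv0 : V.valuation x ≠ 0 := (zero_lt_one.trans hgt).ne'
    have h2 : V.valuation (∑ h ∈ Finset.univ.erase (0 : Fin (R + 1)), F h * x ^ (R - (h : ℕ))) <
        V.valuation x ^ R := by
      refine Valuation.map_sum_lt _ (pow_ne_zero _ hv0) ?_
      intro h hh
      have h3 : 0 < (h : ℕ) := by
        have h4 := (Finset.mem_erase.1 hh).1
        exact Nat.pos_of_ne_zero fun h7 => h4 (Fin.ext h7)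
      have h5 := h.2
      rw [map_mul, map_pow]
      exact (mul_le_of_le_one_left' (hF h)).trans_lt (pow_lt_pow_right₀ hgt (by omega))
    have h4 := hx
    rw [← Finset.add_sum_erase _ _ (Finset.mem_univ (0 : Fin (R + 1)))] at h4
    have h5 := eq_neg_of_add_eq_zero_left h4
    have h6 := congrArg V.valuation h5
    rw [Valuation.map_neg, map_mul, h0, one_mul, map_pow, Fin.val_zero, Nat.sub_zero] at h6
    rw [← h6] at h2
    exact lt_irrefl _ h2

theorem scale_term {F L z x μ : ℂ} (hμ : μ ≠ 0) {R h : ℕ} (hh : h ≤ R) :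
    F * (L * z ^ (2 * h)) * (z ^ 2 * x / μ) ^ (R - h) =
      L * z ^ (2 * R) / μ ^ R * (μ ^ h * F * x ^ (R - h)) := by
  obtain ⟨n, rfl⟩ := Nat.exists_eq_add_of_le hh
  rw [Nat.add_sub_cancel_left, div_pow, mul_pow, ← pow_mul]
  field_simp
  ring

theorem main_pt (D : Data r q) {m : ℕ} (v : HeightOneSpectrum (𝓞 D.K)) (S : D.Scales v)
    (hgen : D.GeneralPosition v.asIdeal m) {ρ : ℕ} {ξ ζ : Fin r → ℂ} {P : Fin q → (D.fibre ξ ζ).Point}
    (hX : D.OnX ξ ζ P) (hz : InSubgroup P ρ) (W : Finset (Fin r))
    (hW : AlgebraicIndependent ℚ (fun i : W => ξ i / ζ i)) : W.card + ρ ≤ m := by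
  classical
  obtain ⟨⟨hξζ, hH⟩, hP⟩ := hX
  obtain ⟨V, hA1, hA2, hrat, π, k, hk, hkA, res, l, ξ', ζ', hπ, hresπ, hres, hl, hξ', hζ', hne,
    hind⟩ := Pool.Agent.U854.SA.place_res D.σ v S.prime S.mem hξζ W hW
  have hpV : V.valuation (S.p : ℂ) < 1 := by
    have := (hA2 (S.p : 𝓞 D.K)).2 S.mem
    simpa using this
  have hpC : (S.p : ℂ) ≠ 0 := by exact_mod_cast S.prime.ne_zero
  have hpV0 : V.valuation (S.p : ℂ) ≠ 0 := (Valuation.ne_zero_iff _).2 hpC
  have hpnon : (S.p : ℂ) ∈ V.nonunits := (V.mem_nonunits_iff).2 hpV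
  have harch := hrat.arch hpV hpV0
  obtain ⟨ϖ, hϖ⟩ := v.valuation_exists_uniformizer D.K
  have hϖ0 : ϖ ≠ 0 := by
    rintro rfl
    rw [map_zero] at hϖ
    exact absurd hϖ.symm WithZero.coe_ne_zero
  have hϖlt : v.valuation D.K ϖ < 1 := by
    rw [hϖ, ← WithZero.exp_zero]
    exact WithZero.exp_lt_exp.2 (by norm_num)
  have hg1 : V.valuation (D.σ ϖ) < 1 := Pool.Agent.N135.ZO.val_lt_of hA1 hA2 hϖlt
  have hg0 : D.σ ϖ ≠ 0 := (map_ne_zero D.σ).2 hϖ0
  have hgv : V.valuation (D.σ ϖ) ≠ 0 := (Valuation.ne_zero_iff _).2 hg0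
  -- values of elements of `K`
  have hKval : ∀ (x : D.K) (t : ℤ), v.valuation D.K x = WithZero.exp t →
      V.valuation (D.σ x) * V.valuation (D.σ ϖ) ^ t = 1 := by
    intro x t hx
    have h3 : v.valuation D.K (x * ϖ ^ t) = 1 := by
      rw [map_mul, map_zpow₀, hx, hϖ, ← WithZero.exp_zsmul, ← WithZero.exp_add]
      simp
    have h4 := Pool.Agent.N135.ZO.val_one_of hA1 hA2 h3
    rwa [map_mul, map_mul, map_zpow₀, map_zpow₀] at h4
  have hR : V.valuation (S.p : ℂ) = V.valuation (D.σ ϖ) ^ S.e := by
    have h1 := hKval _ _ S.ram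
    rw [map_natCast, zpow_neg, zpow_natCast] at h1
    exact (mul_inv_eq_one₀ (pow_ne_zero _ hgv)).1 h1
  have he0 : 0 < S.e := by
    rcases Nat.eq_zero_or_pos S.e with h | h
    · rw [h, pow_zero] at hR
      rw [hR] at hpV
      exact absurd hpV (lt_irrefl _)
    · exact h
  -- the values of the forms at the normalized coordinates
  have hVal : ∀ {deg : Fin r → ℕ} (F : MultiForm (𝓞 D.K) r deg),
      ((F.eval π ξ' ζ' : V) : ℂ) = F.eval D.ι ξ ζ * ∏ i, l i ^ deg i := by
    intro deg F
    have h3 := map_eval F π V.subtype ξ' ζ'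
    have h5 : (fun i => V.subtype (ξ' i)) = fun i => l i * ξ i := funext hξ'
    have h6 : (fun i => V.subtype (ζ' i)) = fun i => l i * ζ i := funext hζ'
    rw [hπ, h5, h6, eval_scale] at h3
    exact h3
  have hRes : ∀ {deg : Fin r → ℕ} (F : MultiForm (𝓞 D.K) r deg),
      res (F.eval π ξ' ζ') = F.eval
        ((algebraMap (𝓞 D.K ⧸ v.asIdeal) k).comp (Ideal.Quotient.mk v.asIdeal))
        (fun i => res (ξ' i)) (fun i => res (ζ' i)) := by
    intro deg F
    rw [hresπ]
    exact map_eval F π res ξ' ζ'
  have hHres : ∀ t, (D.H t).eval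
      ((algebraMap (𝓞 D.K ⧸ v.asIdeal) k).comp (Ideal.Quotient.mk v.asIdeal))
      (fun i => res (ξ' i)) (fun i => res (ζ' i)) = 0 := by
    intro t
    rw [← hRes]
    have h2 : (D.H t).eval π ξ' ζ' = 0 := by
      apply Subtype.ext
      rw [hVal, hH t, zero_mul]
      rfl
    rw [h2, map_zero]
  have hcount := hgen k (fun i => res (ξ' i)) (fun i => res (ζ' i)) ⟨hne, hHres⟩ W hind
  -- the bad points
  let Bad : Finset (Fin q) := Finset.univ.filter fun j =>
    res ((D.F j 0).eval π ξ' ζ') = 0 ∨ res ((D.F j (Fin.last (D.R j))).eval π ξ' ζ') = 0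
  have hBad : Bad.card + W.card ≤ m := by
    refine le_trans (Nat.add_le_add_right ?_ _) hcount
    rw [← Set.ncard_coe_finset]
    refine Set.ncard_le_ncard ?_ (Set.toFinite _)
    intro j hj
    have h1 := (Finset.mem_filter.1 (Finset.mem_coe.1 hj)).2
    rw [hRes, hRes] at h1
    exact h1
  -- the scaling
  let z : ℂ := ∏ i, l i ^ D.ε i
  have hz0 : z ≠ 0 := Finset.prod_ne_zero_iff.2 fun i _ => pow_ne_zero _ (hl i)
  have hzpow : ∀ n : ℕ, ∏ i, l i ^ (n * D.ε i) = z ^ n := by
    intro n
    rw [← Finset.prod_pow]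
    refine Finset.prod_congr rfl fun i _ => ?_
    rw [← pow_mul, mul_comm n]
  have hAV : V.valuation (z ^ 4 * D.A.eval D.ι ξ ζ) ≤ 1 := by
    have h1 := hVal D.A
    rw [hzpow] at h1
    rw [mul_comm, ← h1, V.valuation_le_one_iff]
    exact (D.A.eval π ξ' ζ').2
  have hBV : V.valuation (z ^ 6 * D.B.eval D.ι ξ ζ) ≤ 1 := by
    have h1 := hVal D.B
    rw [hzpow] at h1
    rw [mul_comm, ← h1, V.valuation_le_one_iff]
    exact (D.B.eval π ξ' ζ').2
  have hμ0 : ∀ j, D.σ (D.μ j) ≠ 0 := by
    intro j h
    have h1 := hKval _ _ (S.scale j)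
    rw [h, map_zero, zero_mul] at h1
    exact zero_ne_one h1
  -- the good points are near to the origin
  have hgood : ∀ j, j ∉ Bad → V.valuation (z ^ 2 * xCoord (P j)) *
      V.valuation (D.σ ϖ) ^ S.f j = 1 := by
    intro j hj
    have hj' : ¬ (res ((D.F j 0).eval π ξ' ζ') = 0 ∨
        res ((D.F j (Fin.last (D.R j))).eval π ξ' ζ') = 0) := fun h =>
      hj (Finset.mem_filter.2 ⟨Finset.mem_univ _, h⟩)
    push Not at hj'
    have hunit : ∀ x : V, res x ≠ 0 → V.valuation (x : ℂ) = 1 := by
      intro x hx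
      refine le_antisymm ((V.valuation_le_one_iff _).2 x.2) (not_lt.1 fun h => ?_)
      exact hx ((hres x).2 h)
    have hdprod : ∏ i, l i ^ D.d j i ≠ 0 :=
      Finset.prod_ne_zero_iff.2 fun i _ => pow_ne_zero _ (hl i)
    rcases hP j with ⟨-, h0⟩ | ⟨-, hsum⟩
    · exfalso
      have h1 := hunit _ hj'.1
      rw [hVal, h0, zero_mul, map_zero] at h1
      exact zero_ne_one h1
    · have hroot : ∑ h : Fin (D.R j + 1), (((D.F j h).eval π ξ' ζ' : V) : ℂ) *
          (z ^ 2 * xCoord (P j) / D.σ (D.μ j)) ^ (D.R j - (h : ℕ)) = 0 := by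
        have h1 : ∀ h : Fin (D.R j + 1), (((D.F j h).eval π ξ' ζ' : V) : ℂ) *
            (z ^ 2 * xCoord (P j) / D.σ (D.μ j)) ^ (D.R j - (h : ℕ)) =
            (∏ i, l i ^ D.d j i) * z ^ (2 * D.R j) / D.σ (D.μ j) ^ D.R j *
            (D.σ (D.μ j) ^ (h : ℕ) * (D.F j h).eval D.ι ξ ζ *
              xCoord (P j) ^ (D.R j - (h : ℕ))) := by
          intro h
          have h2 : ∏ i, l i ^ (D.d j i + 2 * (h : ℕ) * D.ε i) =
              (∏ i, l i ^ D.d j i) * z ^ (2 * (h : ℕ)) := by
            rw [← hzpow, ← Finset.prod_mul_distrib]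
            exact Finset.prod_congr rfl fun i _ => pow_add _ _ _
          rw [hVal, h2]
          exact scale_term (hμ0 j) (Nat.lt_succ_iff.1 h.2)
        rw [Finset.sum_congr rfl fun h _ => h1 h, ← Finset.mul_sum, hsum, mul_zero]
      have h1 := root_unit V (D.R j) (fun h => (((D.F j h).eval π ξ' ζ' : V) : ℂ))
        (fun h => (V.valuation_le_one_iff _).2 ((D.F j h).eval π ξ' ζ').2) (hunit _ hj'.1)
        (hunit _ hj'.2) hroot
      rw [map_div₀, div_eq_one_iff_eq ((Valuation.ne_zero_iff _).2 (hμ0 j))] at h1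
      rw [h1]
      have h2 := hKval _ _ (S.scale j)
      rwa [zpow_natCast] at h2
  -- counting
  have hρ : ρ ≤ Bad.card := by
    obtain ⟨E, c, hc, hcP⟩ := hz
    by_contra hlt
    push Not at hlt
    have h2 := le_finrank E P c hc hcP
    obtain ⟨c', ⟨t, ht, hrel⟩, hc0, hcB⟩ := exists_relation (relMod E P) Bad (hlt.trans_le h2)
    refine Pool.Agent.TH971.RF.rel_placeE S.prime hpnon harch hz0 hAV hBV (toE E) hR he0
      (zero_lt_iff.2 hgv) P (Finset.univ.filter fun j => j ∉ Bad) S.f ?_
      (fun i _ => S.level i) (fun i _ j _ => S.level_ne i j) c' hc0 ?_ ht hrel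
    · intro j hj
      have h3 := hgood j (Finset.mem_filter.1 hj).2
      have h4 : xCoord (P j) = Pool.Agent.W466.EP.xx (A := D.A.eval D.ι ξ ζ)
        (B := D.B.eval D.ι ξ ζ) (P j) := xCoord_eq (P j)
      rw [h4] at h3
      have h5 := Pool.Agent.TH971.RF.xx_scl (A := D.A.eval D.ι ξ ζ) (B := D.B.eval D.ι ξ ζ) hz0
        (P j)
      exact (congrArg (fun x => V.valuation x * V.valuation (D.σ ϖ) ^ S.f j) h5).trans h3
    · intro j hj
      refine hcB j ?_
      by_contra h
      exact hj (Finset.mem_filter.2 ⟨Finset.mem_univ _, h⟩)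
  omega

theorem main (D : Data r q) {m : ℕ} (v : HeightOneSpectrum (𝓞 D.K)) (S : D.Scales v)
    (hgen : D.GeneralPosition v.asIdeal m) : D.NoAtypical m := by
  classical
  refine ⟨fun ρ ξ ζ P hX hP W hW => main_pt D v S hgen hX hP W hW, ?_⟩
  intro ρ W h hWX hcl hprime hh
  obtain ⟨w, hwW, hhw, T, hT, hdim⟩ :=
    Pool.Agent.W282.LF.generic_dim_open ℚ W hprime hcl h hh
  obtain ⟨P, hX, hP⟩ := hWX w hwW hhw
  have hT' : AlgebraicIndependent ℚ (fun i : T => w i / (1 : Fin r → ℂ) i) := by
    have e : (fun i : T => w i / (1 : Fin r → ℂ) i) = fun i : T => w i := by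
      funext i
      rw [Pi.one_apply, div_one]
    rw [e]
    exact hT
  have h4 := main_pt D v S hgen hX hP T hT'
  calc Pool.Agent.W282.ZP.zdim W + (ρ : Cardinal) ≤ (T.card : Cardinal) + (ρ : Cardinal) := by
        gcongr
    _ = ((T.card + ρ : ℕ) : Cardinal) := by push_cast; rfl
    _ ≤ (m : Cardinal) := by exact_mod_cast h4

/-- The first and last forms `F_{l,0}`, `F_{l,R_l}` on the projective line are not zero modulo `v` and
have no common zeros modulo `v` for different `l`. -/
def Data.LineCondition (D : Data 1 q) (v : Ideal (𝓞 D.K)) : Prop :=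
  (∀ l, (D.F l 0).NonzeroMod v ∧ (D.F l (Fin.last (D.R l))).NonzeroMod v) ∧
  ∀ (k : Type) [Field k] [Algebra (𝓞 D.K ⧸ v) k] (ξ ζ : Fin 1 → k), (ξ 0 ≠ 0 ∨ ζ 0 ≠ 0) →
    ∀ l l', D.Bad (reduction v k) ξ ζ l → D.Bad (reduction v k) ξ ζ l' → l = l'

theorem div_pow_mul {k : Type} [Field k] (a : k) {b : k} (hb : b ≠ 0) {m n : ℕ} (h : m ≤ n) :
    (a / b) ^ m * b ^ n = a ^ m * b ^ (n - m) := by
  obtain ⟨c, rfl⟩ := Nat.exists_eq_add_of_le h
  rw [Nat.add_sub_cancel_left, div_pow, pow_add]
  field_simp

theorem form_alg {R k : Type} [CommRing R] (v : Ideal R) [Field k] [Algebra (R ⧸ v) k]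
    {deg : Fin 1 → ℕ} (F : MultiForm R 1 deg) (hF : ∃ e, F.coeff e ∉ v) {ξ ζ : Fin 1 → k}
    (hζ : ζ 0 ≠ 0)
    (h0 : F.eval ((algebraMap (R ⧸ v) k).comp (Ideal.Quotient.mk v)) ξ ζ = 0) :
    IsAlgebraic (R ⧸ v) (ξ 0 / ζ 0) := by
  classical
  obtain ⟨e₀, he₀⟩ := hF
  let Q : Polynomial (R ⧸ v) := ∑ e : (i : Fin 1) → Fin (deg i + 1),
    Polynomial.C (Ideal.Quotient.mk v (F.coeff e)) * Polynomial.X ^ (e 0 : ℕ)
  refine ⟨Q, ?_, ?_⟩
  · intro hQ
    have h1 : Q.coeff (e₀ 0 : ℕ) = Ideal.Quotient.mk v (F.coeff e₀) := by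
      change (∑ e : (i : Fin 1) → Fin (deg i + 1),
        Polynomial.C (Ideal.Quotient.mk v (F.coeff e)) * Polynomial.X ^ (e 0 : ℕ)).coeff _ = _
      rw [Polynomial.finsetSum_coeff, Finset.sum_eq_single e₀]
      · rw [Polynomial.coeff_C_mul_X_pow, if_pos rfl]
      · intro e _ hne
        rw [Polynomial.coeff_C_mul_X_pow, if_neg]
        intro h
        apply hne
        funext i
        obtain rfl := Subsingleton.elim i 0
        exact (Fin.ext h).symm
      · intro h
        exact absurd (Finset.mem_univ _) h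
    rw [hQ, Polynomial.coeff_zero] at h1
    exact he₀ (Ideal.Quotient.eq_zero_iff_mem.1 h1.symm)
  · have h1 : Polynomial.aeval (ξ 0 / ζ 0) Q * ζ 0 ^ deg 0 =
        F.eval ((algebraMap (R ⧸ v) k).comp (Ideal.Quotient.mk v)) ξ ζ := by
      change Polynomial.aeval (ξ 0 / ζ 0) (∑ e : (i : Fin 1) → Fin (deg i + 1),
        Polynomial.C (Ideal.Quotient.mk v (F.coeff e)) * Polynomial.X ^ (e 0 : ℕ)) * _ = _
      rw [map_sum, Finset.sum_mul]
      refine Finset.sum_congr rfl fun e _ => ?_
      rw [map_mul, Polynomial.aeval_C, map_pow, Polynomial.aeval_X, Fin.prod_univ_one,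
        RingHom.comp_apply, mul_assoc]
      congr 1
      exact div_pow_mul (ξ 0) hζ (Nat.lt_succ_iff.1 (e 0).2)
    rw [h0] at h1
    exact (mul_eq_zero.1 h1).resolve_right (pow_ne_zero _ hζ)

theorem line (D : Data 1 q) (v : Ideal (𝓞 D.K)) (h : D.LineCondition v) :
    D.GeneralPosition v 1 := by
  classical
  intro k _ _ ξ ζ hH W hW
  have _ : Nontrivial (𝓞 D.K ⧸ v) := (algebraMap (𝓞 D.K ⧸ v) k).domain_nontrivial
  have hS1 : {l | D.Bad (reduction v k) ξ ζ l}.ncard ≤ 1 := by
    rw [Set.ncard_le_one]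
    intro l hl l' hl'
    exact h.2 k ξ ζ (hH.1 0) l l' hl hl'
  have hWc : W.card ≤ 1 := by
    have := Finset.card_le_univ W
    simpa using this
  rcases Set.eq_empty_or_nonempty {l | D.Bad (reduction v k) ξ ζ l} with hemp | ⟨l, hl⟩
  · rw [hemp, Set.ncard_empty]
    omega
  have hW0 : W = ∅ := by
    rw [Finset.eq_empty_iff_forall_notMem]
    intro j hj
    obtain rfl := Subsingleton.elim j 0
    apply hW.transcendental ⟨0, hj⟩
    show IsAlgebraic _ (ξ 0 / ζ 0)
    by_cases hζ : ζ 0 = 0
    · rw [hζ, div_zero]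
      exact isAlgebraic_zero
    · rcases hl with h0 | h0
      · exact form_alg v _ (h.1 l).1 hζ h0
      · exact form_alg v _ (h.1 l).2 hζ h0
  rw [hW0, Finset.card_empty]
  omega

/-- **Pink's conjecture for the fibre products of multisections of an elliptic scheme** which are in
general position modulo one place, near to the origin at incongruent levels. -/
theorem result :
    (∀ (r q m : ℕ) (D : Data r q) (v : HeightOneSpectrum (𝓞 D.K)), Nonempty (D.Scales v) →
      D.GeneralPosition v.asIdeal m → D.NoAtypical m) ∧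
    -- elliptic schemes over open subsets of the projective line
    ∀ (q : ℕ) (D : Data 1 q) (v : HeightOneSpectrum (𝓞 D.K)), Nonempty (D.Scales v) →
      D.LineCondition v.asIdeal → D.NoAtypical 1 :=
  ⟨fun _ _ _ D v h hgen => main D v h.some hgen, fun _ D v h hline =>
    main D v h.some (line D v.asIdeal hline)⟩

end Pool.Agent.Results.MP_28d749_ag.OnePlace
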