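import Pool.Agent.R424.PT.Main
import Pool.Agent.U163.ZP.Elim2

/-!
# MP_28d749_ag: Pink's conjecture for all systems of equations in the powers of elliptic schemes over
parameter spaces of any dimension

**The abelian scheme.** As in `TropicalLocalCriterion` the base is the space of all
`s = (a, b, s_1, …, s_k) ∈ ℂ^(2+k)` with `4 a³ + 27 b² ≠ 0`, and the fibre at `s` is the `q`-th power of the
elliptic curve `y² = x³ + a x + b`. (By restriction this gives the `q`-th fibre power of any elliptic
scheme over any affine variety.) We study the sets `X` (`OnX`) given by a finite system of polynomials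
`∑_β c j β z^β`, with exponents `β ∈ supp j`, in the `2 + k` coordinates of the base, the abscissas of the `q`
points of the curve and `N` auxiliary coordinates. So `X` can be any subvariety over `ℚ` which is stable
under the signs of the points, or the image of any variety, minus the zero sections.

**The parameters.** Let `W ⊆ 𝔸^ν` be an irreducible affine variety over `ℚ` of dimension at most `r`,
given by its prime ideal `I`, and let `F_1, …, F_M` be polynomials over `ℤ` such that any `r + 1` of the
functions `F_l` on `W` are multiplicatively independent modulo constants (`MultIndependent`). The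
parameters `t` are the integral points of `W` at which no value `F_l (t)` is divisible by the square of a
prime `> b` (`Admissible`). The coefficients of the system are of the form `c j β = F_l (t) ^ e l j β * g` for
every `l`, where no prime `> b` divides both `g` and `F_l (t)` (`HasOrders`); for example the members of
families of systems with the coefficients `a j β ∏_l F_l (t) ^ e l j β`, if the values of the `F_l` have no
common primes `> b`.

**The condition** (`Redundant`). The condition of `TropicalLocalCriterion` is that for every set `T` of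
coordinates and every `ρ` with `|T| + ρ = m + 1` there are a place `l` and values `τ_i`, `i ∈ T`, such that all
the points `w` of the tropicalization at `l` with `w_i = τ_i` for `i ∈ T` are `ρ`-independent
(`Independent`: more than `q - ρ` of the points are near to the origin of the curve, and the differences of
the values of their abscissas are not integers). We assume that there are always at least `r + 1` such
indices `l`.

**Theorem.** There is a function `H` on `W`, not identically zero, which depends only on `b`, `r`, `W` and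
the `F_l`, such that the following holds for ALL `k`, `q`, `N`, `m` and ALL finite systems of exponents with
orders `e l j β` which satisfy `Redundant`. If `t` is an admissible point of `W` with `H (t) ≠ 0` and `c` are any
coefficients with these orders at `t`, then `X` has no atypical intersection with algebraic subgroups of
the fibres (`NoAtypicalP`): for every `ρ` every irreducible constructible subset of `X ∩ 𝒜^[≥ρ]` has
dimension at most `m - ρ`, in particular `X ∩ 𝒜^[>m]` is empty, as in Pink's conjecture. So the admissible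
parameters with atypical intersections are on one proper closed subset of `W` for all the systems at
once. If `W` is a cone and the `F_l` are forms, then `H` can be taken to be a form.

In particular (second part) let `F_1, …, F_M` be nonconstant polynomials in `r` variables over `ℤ`,
pairwise coprime over `ℚ`. Then there is a polynomial `H ≠ 0` in `r` variables (a form, if the `F_l` are)
such that for all `t ∈ ℤ^r` with `H (t) ≠ 0` for which no prime `> b` divides two of the values `F_l (t)`, and
no square of such a prime divides one of them, all the systems with the coefficients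
`a j β ∏_l F_l (t) ^ e l j β`, with nonzero integers `a j β` whose prime divisors are at most `b` and orders
`e` which satisfy `Redundant`, define sets without atypical intersections.

The file `ManyParameters` bounds the number of the exceptional parameters of one family in a box by
`C B ^ (s + 1/2 + ε)`; `OneNullSet` and `MetricSequences` are about sequences of parameters. Here the
parameter space is an arbitrary variety, the systems are not fixed, and the exceptions are not Zariski
dense.

Proof. By the tropical criterion (`coreP`, starting library) it is sufficient that among any `r + 1` of the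
values `F_l (t)` one has a prime divisor `p > b`. Otherwise `r + 1` of them are `S`-units for a fixed
finite set `S`. There is an algebraic relation between these `r + 1` functions on `W`; a relation with the
smallest number of terms has at least two terms and no vanishing subsum on `W`. Its value at `t` is a sum
of `S`-units which is zero; hence a proper subsum vanishes at `t`, or the ratio of two of the terms, which
is not constant on `W` because of the multiplicative independence, has one of finitely many values (unit
equation, starting library).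
-/

set_option autoImplicit false

namespace Pool.Agent.Results.MP_28d749_ag.SeveralParameters

open MvPolynomial Pool.Agent.R424.TG Pool.Agent.R424.PT
open Pool.Agent.Results.MP_28d749_ag.RandomMultisections (curve)

/-- Any `r + 1` of the functions `F l` are multiplicatively independent modulo constants on the variety
of the prime ideal `I`. -/
def MultIndependent {ν M : ℕ} (I : Ideal (MvPolynomial (Fin ν) ℚ)) (r : ℕ)
    (F : Fin M → MvPolynomial (Fin ν) ℤ) : Prop :=
  ∀ s : Finset (Fin M), s.card = r + 1 → ∀ a a' : Fin M → ℕ, (∀ l, l ∉ s → a l = 0 ∧ a' l = 0) →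
    a ≠ a' → ∀ α : ℚ, ∏ l, map (Int.castRingHom ℚ) (F l) ^ a l -
      C α * ∏ l, map (Int.castRingHom ℚ) (F l) ^ a' l ∉ I

/-- The admissible parameters: the integral points of the variety of `I` at which no value `F l (t)` is
divisible by the square of a prime larger than `b`. -/
def Admissible {ν M : ℕ} (I : Ideal (MvPolynomial (Fin ν) ℚ)) (F : Fin M → MvPolynomial (Fin ν) ℤ)
    (b : ℕ) (t : Fin ν → ℤ) : Prop :=
  (∀ f ∈ I, eval (fun i => (t i : ℚ)) f = 0) ∧
  ∀ l, ∀ p : ℕ, p.Prime → b < p → ¬ (p : ℤ) ^ 2 ∣ eval t (F l)

/-- For every set `T` of coordinates and every `ρ` with `|T| + ρ = m + 1` there are at least `r + 1` indices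
`l` for which there are values `τ` for the coordinates in `T` such that all points of the tropicalization
of the system with the orders `e l` with these values are independent. -/
def Redundant {k q N M : ℕ} {κ : Type} (m r : ℕ) (supp : κ → Finset ((Coord k q ⊕ Fin N) →₀ ℕ))
    (e : Fin M → κ → ((Coord k q ⊕ Fin N) →₀ ℕ) → ℕ) : Prop :=
  ∀ (ρ : ℕ) (T : Finset (Coord k q)), T.card + ρ = m + 1 → ∃ s : Finset (Fin M), s.card = r + 1 ∧
    ∀ l ∈ s, ∃ τ : Coord k q → ℚ, ∀ w : Coord k q ⊕ Fin N → WithTop ℚ,
      (∀ j, TropAt (supp j) (e l j) w) →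
      (∀ i ∈ T, w (Sum.inl i) = (τ i : WithTop ℚ)) → Independent ρ w

/-- The coefficients `c j β` are of the form `f l ^ e l j β * g`, where no prime larger than `b` divides
both `g` and `f l`. -/
def HasOrders {k q N M : ℕ} {κ : Type} (b : ℕ) (f : Fin M → ℤ)
    (supp : κ → Finset ((Coord k q ⊕ Fin N) →₀ ℕ))
    (e : Fin M → κ → ((Coord k q ⊕ Fin N) →₀ ℕ) → ℕ)
    (c : κ → ((Coord k q ⊕ Fin N) →₀ ℕ) → ℤ) : Prop :=
  ∀ l j, ∀ β ∈ supp j, ∃ g : ℤ, c j β = f l ^ e l j β * g ∧
    ∀ p : ℕ, p.Prime → b < p → (p : ℤ) ∣ f l → ¬ (p : ℤ) ∣ g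

/-- **Pink's conjecture for all systems of equations with coefficients of given orders over parameter
spaces of any dimension.** -/
theorem result (b r M : ℕ) :
    (∀ (ν : ℕ) (I : Ideal (MvPolynomial (Fin ν) ℚ)), I.IsPrime →
      Algebra.trdeg ℚ (MvPolynomial (Fin ν) ℚ ⧸ I) ≤ r →
      ∀ F : Fin M → MvPolynomial (Fin ν) ℤ, MultIndependent I r F →
      ∃ H : MvPolynomial (Fin ν) ℚ, H ∉ I ∧
        ((∀ f ∈ I, ∀ j, homogeneousComponent j f ∈ I) → (∀ l, ∃ j, (F l).IsHomogeneous j) →
          ∃ j, H.IsHomogeneous j) ∧
        ∀ t : Fin ν → ℤ, Admissible I F b t → eval (fun i => (t i : ℚ)) H ≠ 0 →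
          ∀ (κ : Type) (k q N m : ℕ) (supp : κ → Finset ((Coord k q ⊕ Fin N) →₀ ℕ))
            (e : Fin M → κ → ((Coord k q ⊕ Fin N) →₀ ℕ) → ℕ), Redundant m r supp e →
          ∀ c : κ → ((Coord k q ⊕ Fin N) →₀ ℕ) → ℤ, HasOrders b (fun l => eval t (F l)) supp e c →
            NoAtypicalP m (OnX supp (fun j β => ((c j β : ℤ) : ℂ)) :
              ∀ x : Fin 2 ⊕ Fin k → ℂ, (Fin q → (curve (x (Sum.inl 0)) (x (Sum.inl 1))).Point) →
                Prop)) ∧
    ∀ F : Fin M → MvPolynomial (Fin r) ℤ, (∀ l, 0 < (F l).totalDegree) →
      (∀ l l', l ≠ l' → IsRelPrime (map (Int.castRingHom ℚ) (F l)) (map (Int.castRingHom ℚ) (F l'))) →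
      ∃ H : MvPolynomial (Fin r) ℚ, H ≠ 0 ∧
        ((∀ l, ∃ j, (F l).IsHomogeneous j) → ∃ j, H.IsHomogeneous j) ∧
        ∀ t : Fin r → ℤ, Admissible ⊥ F b t → (∀ l l', l ≠ l' → ∀ p : ℕ, p.Prime →
            (p : ℤ) ∣ eval t (F l) → (p : ℤ) ∣ eval t (F l') → p ≤ b) →
          eval (fun i => (t i : ℚ)) H ≠ 0 →
          ∀ (κ : Type) (k q N m : ℕ) (supp : κ → Finset ((Coord k q ⊕ Fin N) →₀ ℕ))
            (e : Fin M → κ → ((Coord k q ⊕ Fin N) →₀ ℕ) → ℕ), Redundant m r supp e →
          ∀ a : κ → ((Coord k q ⊕ Fin N) →₀ ℕ) → ℤ,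
            (∀ j, ∀ β ∈ supp j, ∀ p : ℕ, p.Prime → (p : ℤ) ∣ a j β → p ≤ b) →
            NoAtypicalP m
              (OnX supp (fun j β => (((a j β * ∏ l, eval t (F l) ^ e l j β : ℤ)) : ℂ)) :
              ∀ x : Fin 2 ⊕ Fin k → ℂ, (Fin q → (curve (x (Sum.inl 0)) (x (Sum.inl 1))).Point) →
                Prop) := by
  classical
  have main : ∀ (ν : ℕ) (I : Ideal (MvPolynomial (Fin ν) ℚ)), I.IsPrime →
      Algebra.trdeg ℚ (MvPolynomial (Fin ν) ℚ ⧸ I) ≤ r →
      ∀ F : Fin M → MvPolynomial (Fin ν) ℤ, MultIndependent I r F →
      ∃ H : MvPolynomial (Fin ν) ℚ, H ∉ I ∧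
        ((∀ f ∈ I, ∀ j, homogeneousComponent j f ∈ I) → (∀ l, ∃ j, (F l).IsHomogeneous j) →
          ∃ j, H.IsHomogeneous j) ∧
        ∀ t : Fin ν → ℤ, Admissible I F b t → eval (fun i => (t i : ℚ)) H ≠ 0 →
          ∀ (κ : Type) (k q N m : ℕ) (supp : κ → Finset ((Coord k q ⊕ Fin N) →₀ ℕ))
            (e : Fin M → κ → ((Coord k q ⊕ Fin N) →₀ ℕ) → ℕ), Redundant m r supp e →
          ∀ c : κ → ((Coord k q ⊕ Fin N) →₀ ℕ) → ℤ, HasOrders b (fun l => eval t (F l)) supp e c →
            NoAtypicalP m (OnX supp (fun j β => ((c j β : ℤ) : ℂ)) :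
              ∀ x : Fin 2 ⊕ Fin k → ℂ, (Fin q → (curve (x (Sum.inl 0)) (x (Sum.inl 1))).Point) →
                Prop) := by
    intro ν I hI hr F hF
    by_cases hM : r + 1 ≤ M
    · obtain ⟨H, hH, hhom, hcore⟩ := Pool.Agent.U163.ZP.core2 I r hM hr F
        (fun s hs a a' h hne α => hF s hs a a' h hne α) b
      refine ⟨H, hH, hhom, fun t ht htH κ k q N m supp e he c hc => ?_⟩
      obtain ⟨ht0, hbig⟩ := hcore t ht.1 htH
      let J : Type := {l : Fin M // ∃ p : ℕ, p.Prime ∧ b < p ∧ (p : ℤ) ∣ eval t (F l)}
      choose p hp hpb hpF using fun l : J => l.2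
      refine coreP m supp _ (fun (l : J) => e l.1) ?_ p hp fun l j β hβ V hV => ?_
      · intro ρ T hT
        obtain ⟨s, hs, hex⟩ := he ρ T hT
        obtain ⟨l, hl, p', hp', hpb', hpF'⟩ := hbig s hs
        obtain ⟨τ, hτ⟩ := hex l hl
        exact ⟨⟨l, p', hp', hpb', hpF'⟩, τ, hτ⟩
      · obtain ⟨g, hg1, hg2⟩ := hc l.1 j β hβ
        have h2 : ¬ (p l : ℤ) ∣ g := hg2 (p l) (hp l) (hpb l) (hpF l)
        obtain ⟨u, hu⟩ := hpF l
        have hpu : ¬ (p l : ℤ) ∣ u := by
          rintro ⟨u', rfl⟩
          exact ht.2 l.1 (p l) (hp l) (hpb l) ⟨u', by rw [hu]; ring⟩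
        have h4 : V.valuation ((eval t (F l.1) : ℤ) : ℂ) = V.valuation (p l : ℂ) := by
          rw [hu]
          push_cast
          rw [map_mul, Pool.Agent.W466.ZP.int_unit V (hp l) hV _ hpu, mul_one]
        change V.valuation ((c j β : ℤ) : ℂ) = _
        rw [hg1]
        push_cast
        rw [map_mul, map_pow, h4, Pool.Agent.W466.ZP.int_unit V (hp l) hV _ h2, mul_one]
    · refine ⟨1, fun h => hI.ne_top ((Ideal.eq_top_iff_one _).2 h), fun _ _ =>
        ⟨0, isHomogeneous_one _ _⟩, fun t _ _ κ k q N m supp e he c _ => ?_⟩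
      obtain ⟨s, hs, -⟩ := he (m + 1) ∅ (by rw [Finset.card_empty, zero_add])
      have h1 := Finset.card_le_univ s
      rw [Fintype.card_fin, hs] at h1
      exact absurd h1 hM
  refine ⟨main, fun F hF1 hF2 => ?_⟩
  obtain ⟨H, hH, hhom, h⟩ := main r ⊥ Ideal.isPrime_bot (Pool.Agent.U163.ZP.trdeg_bot r) F (by
    intro s _ a a' _ hne α
    exact Pool.Agent.U163.ZP.not_mem_bot (fun l => Pool.Agent.U163.ZP.toQ_ne_zero (hF1 l))
      (fun l => Pool.Agent.U163.ZP.not_isUnit_toQ (hF1 l)) hF2 hne α)
  refine ⟨H, fun h0 => hH (Ideal.mem_bot.2 h0), fun h1 => hhom ?_ h1,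
    fun t ht ht2 htH κ k q N m supp e he a ha => ?_⟩
  · intro f hf j
    rw [Ideal.mem_bot] at hf ⊢
    rw [hf, map_zero]
  · refine h t ht htH κ k q N m supp e he _ fun l j β hβ => ?_
    refine ⟨a j β * ∏ l' ∈ Finset.univ.erase l, eval t (F l') ^ e l' j β, ?_, ?_⟩
    · rw [← Finset.mul_prod_erase Finset.univ (fun l' => eval t (F l') ^ e l' j β)
        (Finset.mem_univ l)]
      ring
    · intro p hp hpb hpl hd
      have hpp := Nat.prime_iff_prime_int.1 hp
      rcases hpp.dvd_or_dvd hd with h1 | h1
      · exact absurd (ha j β hβ p hp h1) (by omega)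
      · obtain ⟨l', hl', h2⟩ := (hpp.dvd_finsetProd_iff _).1 h1
        exact absurd (ht2 l l' (Finset.ne_of_mem_erase hl').symm p hp hpl
          (hpp.dvd_of_dvd_pow h2)) (by omega)

end Pool.Agent.Results.MP_28d749_ag.SeveralParameters
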